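import Mathlib
import Pool.Agent.H632R3.BlowGraph
import Pool.Agent.H632R3.Profile

open Finset Filter Topology

namespace Pool.Agent.Results.MP_4b7267_pr.GraphExpProfile

set_option linter.unusedSectionVars false

noncomputable section

/-- The graph `G` is vertex-transitive: its automorphism group acts transitively. -/
def VertexTransitive {V : Type} (G : SimpleGraph V) : Prop :=
  ∀ x y : V, ∃ φ : G ≃g G, φ x = y

/-- Transition matrix `P = (1/2)(I + D⁻¹A)` of the lazy simple random walk on `G`. -/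
def lazySRW {V : Type} [Fintype V] [DecidableEq V] (G : SimpleGraph V) [DecidableRel G.Adj] :
    Matrix V V ℝ :=
  fun x y => (if x = y then 1 / 2 else 0) + (if G.Adj x y then 1 / (2 * (G.degree x : ℝ)) else 0)

/-- Total variation distance to stationarity, `d(t) = max_x ‖P^t(x,·) - π‖_TV` with `π` the
uniform distribution on `V`. -/
def d {V : Type} [Fintype V] [DecidableEq V] (P : Matrix V V ℝ) (t : ℕ) : ℝ :=
  ⨆ x : V, (1 / 2 : ℝ) * ∑ y, |(P ^ t) x y - 1 / (Fintype.card V : ℝ)|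

/-- Total variation mixing time `t_mix(ε) = min {t : d(t) ≤ ε}`. -/
def Tmix {V : Type} [Fintype V] [DecidableEq V] (P : Matrix V V ℝ) (ε : ℝ) : ℕ :=
  sInf {t : ℕ | d P t ≤ ε}

/-- The second largest eigenvalue of an irreducible transition matrix `P` (for which the
eigenvalue `1` is simple): the largest real eigenvalue different from `1`. -/
def lambda2 {V : Type} [Fintype V] [DecidableEq V] (P : Matrix V V ℝ) : ℝ :=
  sSup (spectrum ℝ P \ {1})

/-- Relaxation time `t_rel = 1 / (1 - λ₂)`. -/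
def Trel {V : Type} [Fintype V] [DecidableEq V] (P : Matrix V V ℝ) : ℝ :=
  1 / (1 - lambda2 P)

/-- The product condition `t_mix / t_rel → ∞`, with `t_mix = t_mix(1/4)`. -/
def ProductCondition (V : ℕ → Type) [∀ n, Fintype (V n)] [∀ n, DecidableEq (V n)]
    (P : ∀ n, Matrix (V n) (V n) ℝ) : Prop :=
  Tendsto (fun n => (Tmix (P n) (1 / 4) : ℝ) / Trel (P n)) atTop atTop

/-- Total variation cutoff: `t_mix(ε) / t_mix(1-ε) → 1` for every fixed `ε ∈ (0,1)`. -/
def HasCutoff (V : ℕ → Type) [∀ n, Fintype (V n)] [∀ n, DecidableEq (V n)]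
    (P : ∀ n, Matrix (V n) (V n) ℝ) : Prop :=
  ∀ ε : ℝ, 0 < ε → ε < 1 →
    Tendsto (fun n => (Tmix (P n) ε : ℝ) / (Tmix (P n) (1 - ε) : ℝ)) atTop (𝓝 1)

open Pool.Agent.H632R3.Conv

section

variable (m M : ℕ) [NeZero M]

theorem srw_eq (x y : (Fin m → ZMod 2) × ZMod M) :
    lazySRW (GG m M) x y = sig m M (y - x) := by
  unfold lazySRW sig
  rw [GG_degree]
  congr 1
  · by_cases h : x = y
    · subst h; simp
    · rw [if_neg h, if_neg (fun h1 => h (sub_eq_zero.mp h1).symm)]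

theorem srw_pow (t : ℕ) (x y : (Fin m → ZMod 2) × ZMod M) :
    (lazySRW (GG m M) ^ t) x y = cpow (sig m M) t (y - x) := by
  induction t generalizing x y with
  | zero =>
    simp only [pow_zero, Matrix.one_apply, cpow]
    by_cases h : x = y
    · subst h; simp
    · rw [if_neg h, if_neg (fun h1 => h (sub_eq_zero.mp h1).symm)]
  | succ t ih =>
    rw [pow_succ', Matrix.mul_apply]
    simp_rw [ih, srw_eq]
    simp only [cpow, conv]
    rw [← Equiv.sum_comp (Equiv.addRight x)]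
    refine Finset.sum_congr rfl fun z _ => ?_
    simp only [Equiv.coe_addRight, add_sub_cancel_right]
    congr 2
    abel

theorem d_eq (t : ℕ) : d (lazySRW (GG m M)) t = tv (cpow (sig m M) t) := by
  unfold d
  have h : ∀ x : (Fin m → ZMod 2) × ZMod M,
      (1 / 2 : ℝ) * ∑ y, |(lazySRW (GG m M) ^ t) x y -
        1 / (Fintype.card ((Fin m → ZMod 2) × ZMod M) : ℝ)| = tv (cpow (sig m M) t) := by
    intro x
    unfold tv
    congr 1
    simp_rw [srw_pow]
    exact Equiv.sum_comp (Equiv.subRight x) (fun y => |cpow (sig m M) t y -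
      1 / (Fintype.card ((Fin m → ZMod 2) × ZMod M) : ℝ)|)
  simp_rw [h]
  exact ciSup_const

theorem sig_nonneg (p : (Fin m → ZMod 2) × ZMod M) : 0 ≤ sig m M p := by
  unfold sig
  refine add_nonneg ?_ ?_ <;> split_ifs <;> positivity

theorem sig_sum (hm : 0 < m) : ∑ p, sig m M p = 1 := by
  have hD : (0 : ℝ) < DD m M := by exact_mod_cast DD_pos m M hm
  unfold sig
  rw [Finset.sum_add_distrib, Finset.sum_ite_eq', ← Finset.sum_filter, Finset.sum_const,
    nsmul_eq_mul, card_inS]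
  simp only [Finset.mem_univ, if_true]
  field_simp
  norm_num

theorem d_upper (hm : 0 < m) (hM : 2 ^ m ≤ M) (t : ℕ) :
    d (lazySRW (GG m M)) t ≤
      (1 - theta m M) ^ t * tv (cpow (lz (cube m) (bb m M)) t) + (3 / 4) ^ t := by
  rw [d_eq, sig_eq]
  refine (tv_prod_le (rho2_nonneg m M) t).trans (add_le_add (le_of_eq ?_) ?_)
  · exact tv_mix (theta_mem m M hm hM).2 (lz_sum _ hm _) (sigX_eq m M hm hM) t
  · exact pow_le_pow_left₀ (Finset.sum_nonneg fun x _ => rho2_nonneg m M x)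
      (rho2_sum m M hm hM) t

theorem d_lower (hm : 0 < m) (hM : 2 ^ m ≤ M) (t : ℕ) :
    (1 - theta m M) ^ t * tv (cpow (lz (cube m) (bb m M)) t) ≤ d (lazySRW (GG m M)) t := by
  rw [d_eq, sig_eq]
  refine le_trans (le_of_eq ?_) (le_tv_prod (K := ZMod M) (rho1 m M) (rho2 m M) t)
  exact (tv_mix (theta_mem m M hm hM).2 (lz_sum _ hm _) (sigX_eq m M hm hM) t).symm

theorem lambda2_le (hm : 0 < m) (hM : 2 ^ m ≤ M) :
    lambda2 (lazySRW (GG m M)) ≤ 1 - 1 / (4 * m) := by
  have hm1 : (1 : ℝ) ≤ m := by exact_mod_cast hm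
  unfold lambda2
  refine Real.sSup_le ?_ ?_
  · rintro lam ⟨h1, h2⟩
    obtain ⟨ψ, hψ⟩ := spectrum_hat (sig m M) _ (srw_eq m M) h1
    exact sig_hat m M hm hM hψ h2
  · have : 1 / (4 * (m : ℝ)) ≤ 1 := by
      rw [div_le_one (by linarith)]; linarith
    linarith

theorem Trel_pos (hm : 0 < m) (hM : 2 ^ m ≤ M) : 0 < Trel (lazySRW (GG m M)) := by
  have hmr : (0 : ℝ) < m := by exact_mod_cast hm
  have h1 := lambda2_le m M hm hM
  have : 0 < 1 / (4 * (m : ℝ)) := by positivity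
  exact div_pos one_pos (by linarith)

theorem Trel_le (hm : 0 < m) (hM : 2 ^ m ≤ M) : Trel (lazySRW (GG m M)) ≤ 4 * m := by
  have hmr : (0 : ℝ) < m := by exact_mod_cast hm
  have h1 := lambda2_le m M hm hM
  have h2 : 0 < 1 / (4 * (m : ℝ)) := by positivity
  unfold Trel
  rw [div_le_iff₀ (by linarith)]
  calc (1 : ℝ) = 4 * m * (1 / (4 * m)) := by field_simp
    _ ≤ 4 * m * (1 - lambda2 (lazySRW (GG m M))) :=
        mul_le_mul_of_nonneg_left (by linarith) (by positivity)

end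

/-- The dimension. -/
def mk (k : ℕ) : ℕ := 2 ^ ((k + 1) ^ 2)

/-- The size of the second factor. -/
def Mk (k : ℕ) : ℕ := 2 ^ mk k * (k + 1)

instance (k : ℕ) : NeZero (Mk k) := ⟨by unfold Mk; positivity⟩

theorem mk_ge (k : ℕ) : 2 ≤ mk k := by
  unfold mk
  calc 2 = 2 ^ 1 := rfl
    _ ≤ 2 ^ ((k + 1) ^ 2) := Nat.pow_le_pow_right (by norm_num) (Nat.one_le_pow _ _ (by omega))

theorem mk_pos (k : ℕ) : 0 < mk k := by have := mk_ge k; omega

theorem lt_mk (k : ℕ) : k < mk k := by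
  unfold mk
  calc k < (k + 1) ^ 2 := by nlinarith
    _ < 2 ^ ((k + 1) ^ 2) := Nat.lt_two_pow_self

theorem Mk_ge (k : ℕ) : 2 ^ mk k ≤ Mk k := Nat.le_mul_of_pos_right _ (by omega)

/-- The time scale. -/
def TT (k : ℕ) : ℝ := 1 / theta (mk k) (Mk k)

/-- The vertex set. -/
abbrev VV (k : ℕ) : Type := (Fin (mk k) → ZMod 2) × ZMod (Mk k)

theorem TT_eq (k : ℕ) : TT k =
    2 * (mk k : ℝ) * ((k : ℝ) + 1) + 2 * (2 ^ mk k - 1 - mk k) / 2 ^ mk k := by
  have h2 : (0 : ℝ) < 2 ^ mk k := by positivity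
  have hD : (0 : ℝ) < DD (mk k) (Mk k) := by exact_mod_cast DD_pos (mk k) (Mk k) (mk_pos k)
  unfold TT theta
  rw [one_div_div, DD_real]
  unfold Mk
  push_cast
  field_simp

theorem TT_bounds (k : ℕ) : 2 * (mk k : ℝ) * ((k : ℝ) + 1) ≤ TT k ∧
    TT k ≤ 4 * (mk k : ℝ) * ((k : ℝ) + 1) := by
  have h2 : (0 : ℝ) < 2 ^ mk k := by positivity
  have h5 : (mk k : ℝ) + 1 ≤ 2 ^ mk k := by exact_mod_cast m_lt (mk k)
  have h6 : (2 : ℝ) ≤ mk k := by exact_mod_cast mk_ge k
  have h7 : (0 : ℝ) ≤ k := Nat.cast_nonneg k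
  rw [TT_eq]
  constructor
  · have : 0 ≤ 2 * (2 ^ mk k - 1 - (mk k : ℝ)) / 2 ^ mk k :=
      div_nonneg (by linarith) h2.le
    linarith
  · have h8 : 2 * (2 ^ mk k - 1 - (mk k : ℝ)) / 2 ^ mk k ≤ 2 := by
      rw [div_le_iff₀ h2]; linarith
    have h9 : (2 : ℝ) * 1 ≤ mk k * ((k : ℝ) + 1) := mul_le_mul h6 (by linarith) one_pos.le (by linarith)
    linarith

theorem TT_lim : Tendsto TT atTop atTop := by
  refine tendsto_atTop_mono (fun k => ?_) tendsto_natCast_atTop_atTop
  have h6 : (2 : ℝ) ≤ mk k := by exact_mod_cast mk_ge k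
  have h7 : (0 : ℝ) ≤ k := Nat.cast_nonneg k
  have := (TT_bounds k).1
  nlinarith

theorem TT_pos (k : ℕ) : 0 < TT k :=
  div_pos one_pos (theta_mem _ _ (mk_pos k) (Mk_ge k)).1

theorem theta_TT (k : ℕ) : theta (mk k) (Mk k) = 1 / TT k := by
  unfold TT; rw [one_div_one_div]

theorem log_mk (k : ℕ) : Real.log (mk k) = ((k : ℝ) + 1) ^ 2 * Real.log 2 := by
  unfold mk
  push_cast
  rw [Real.log_pow]
  push_cast
  ring

theorem profile (s : ℝ) (hs : 0 < s) :
    Tendsto (fun k => d (lazySRW (GG (mk k) (Mk k))) ⌊s * TT k⌋₊) atTop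
      (𝓝 (Real.exp (-s))) := by
  have h1 := pow_floor_tendsto TT_lim hs.le
  have h2 : Tendsto (fun k => tv (cpow (lz (cube (mk k)) (bb (mk k) (Mk k))) ⌊s * TT k⌋₊))
      atTop (𝓝 1) := by
    refine lz_unmixed (fun k => cube (mk k)) mk_ge
      (fun k => (bb_mem _ _ (mk_pos k) (Mk_ge k)).1)
      (fun k => (bb_mem _ _ (mk_pos k) (Mk_ge k)).2) ?_
    have hl2 := Real.log_two_gt_d9
    have h3 : Tendsto (fun k : ℕ => ((k : ℝ) + 1) * (((k : ℝ) + 1) * Real.log 2 - 16 * s))
        atTop atTop := by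
      refine Tendsto.atTop_mul_atTop₀ ?_ ?_
      · exact tendsto_atTop_add_const_right _ 1 tendsto_natCast_atTop_atTop
      · refine tendsto_atTop_add_const_right _ (-(16 * s)) ?_
        exact (tendsto_atTop_add_const_right _ 1 tendsto_natCast_atTop_atTop).atTop_mul_const
          (by linarith)
    refine tendsto_atTop_mono (fun k => ?_) h3
    have hm : (0 : ℝ) < mk k := by exact_mod_cast mk_pos k
    have h4 : (⌊s * TT k⌋₊ : ℝ) ≤ s * TT k := Nat.floor_le (by
      have := TT_pos k; positivity)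
    have h5 : 4 * (⌊s * TT k⌋₊ : ℝ) / mk k ≤ 16 * s * ((k : ℝ) + 1) := by
      rw [div_le_iff₀ hm]
      have h6 := (TT_bounds k).2
      have h7 : s * TT k ≤ s * (4 * (mk k : ℝ) * ((k : ℝ) + 1)) :=
        mul_le_mul_of_nonneg_left h6 hs.le
      linarith
    rw [log_mk]
    nlinarith
  have h3 := h1.mul h2
  rw [mul_one] at h3
  have hfl : Tendsto (fun k => ⌊s * TT k⌋₊) atTop atTop :=
    tendsto_nat_floor_atTop.comp (TT_lim.const_mul_atTop hs)
  have h4 : Tendsto (fun k => ((3 : ℝ) / 4) ^ ⌊s * TT k⌋₊) atTop (𝓝 0) :=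
    (tendsto_pow_atTop_nhds_zero_of_lt_one (by norm_num) (by norm_num)).comp hfl
  have h5 := h3.add h4
  rw [add_zero] at h5
  refine tendsto_of_tendsto_of_tendsto_of_le_of_le h3 h5 ?_ ?_
  · intro k
    have := d_lower (mk k) (Mk k) (mk_pos k) (Mk_ge k) ⌊s * TT k⌋₊
    rw [theta_TT] at this
    exact this
  · intro k
    have := d_upper (mk k) (Mk k) (mk_pos k) (Mk_ge k) ⌊s * TT k⌋₊
    rw [theta_TT] at this
    exact this

theorem anti (k : ℕ) : Antitone (d (lazySRW (GG (mk k) (Mk k)))) := by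
  have h := tv_antitone (sig_nonneg (mk k) (Mk k)) (sig_sum (mk k) (Mk k) (mk_pos k))
  intro a b hab
  rw [d_eq, d_eq]
  exact h hab

theorem tmix_lim (ε : ℝ) (h0 : 0 < ε) (h1 : ε < 1) :
    Tendsto (fun k => (Tmix (lazySRW (GG (mk k) (Mk k))) ε : ℝ) / TT k) atTop
      (𝓝 (Real.log (1 / ε))) := by
  have hL : 0 < Real.log (1 / ε) := Real.log_pos (by rw [lt_div_iff₀ h0]; linarith)
  rw [tendsto_order]
  have key : ∀ s, Real.exp (-s) = Real.exp (Real.log (1 / ε) - s) * ε := by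
    intro s
    rw [sub_eq_add_neg, Real.exp_add, Real.exp_log (by positivity)]
    field_simp
  constructor
  · intro b hb
    obtain ⟨s, hs1, hs2⟩ := exists_between (max_lt hb hL)
    have hs0 : 0 < s := lt_of_le_of_lt (le_max_right _ _) hs1
    have hsa : b < s := lt_of_le_of_lt (le_max_left _ _) hs1
    have h3 : ε < Real.exp (-s) := by
      rw [key s]
      have : 1 < Real.exp (Real.log (1 / ε) - s) := Real.one_lt_exp_iff.mpr (by linarith)
      nlinarith
    filter_upwards [le_tmix anti TT_lim profile h0 hs0 h3] with k hk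
    refine lt_of_lt_of_le hsa ?_
    rw [le_div_iff₀ (TT_pos k)]
    exact hk
  · intro b hb
    obtain ⟨s, hs1, hs2⟩ := exists_between hb
    have h3 : Real.exp (-s) < ε := by
      rw [key s]
      have : Real.exp (Real.log (1 / ε) - s) < 1 := Real.exp_lt_one_iff.mpr (by linarith)
      nlinarith
    filter_upwards [tmix_le TT_lim profile (hL.trans hs1) h3] with k hk
    refine lt_of_le_of_lt ?_ hs2
    rw [div_le_iff₀ (TT_pos k)]
    exact hk

theorem TT_div (k : ℕ) : ((k : ℝ) + 1) / 2 ≤ TT k / Trel (lazySRW (GG (mk k) (Mk k))) := by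
  have h1 := Trel_pos (mk k) (Mk k) (mk_pos k) (Mk_ge k)
  have h2 := Trel_le (mk k) (Mk k) (mk_pos k) (Mk_ge k)
  have h3 : (0 : ℝ) ≤ k := Nat.cast_nonneg k
  have h4 := (TT_bounds k).1
  rw [le_div_iff₀ h1]
  calc ((k : ℝ) + 1) / 2 * Trel (lazySRW (GG (mk k) (Mk k)))
      ≤ ((k : ℝ) + 1) / 2 * (4 * mk k) := mul_le_mul_of_nonneg_left h2 (by linarith)
    _ = 2 * (mk k : ℝ) * ((k : ℝ) + 1) := by ring
    _ ≤ TT k := h4

theorem half_lim : Tendsto (fun k : ℕ => ((k : ℝ) + 1) / 2) atTop atTop :=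
  (tendsto_atTop_add_const_right _ 1 tendsto_natCast_atTop_atTop).atTop_div_const (by norm_num)

theorem product : ProductCondition VV (fun k => lazySRW (GG (mk k) (Mk k))) := by
  unfold ProductCondition
  have e1 : (1 / 4 : ℝ) < Real.exp (-1) := by
    rw [Real.exp_neg, lt_inv_comm₀ (by norm_num) (Real.exp_pos 1)]
    have := Real.exp_one_lt_d9
    norm_num
    linarith
  have h1 := le_tmix anti TT_lim profile (by norm_num) one_pos e1
  refine tendsto_atTop_mono' _ ?_ half_lim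
  filter_upwards [h1] with k hk
  refine (TT_div k).trans ?_
  exact div_le_div_of_nonneg_right (by rw [one_mul] at hk; exact hk)
    (Trel_pos (mk k) (Mk k) (mk_pos k) (Mk_ge k)).le

/-- There are finite connected vertex-transitive graphs `G_k`, `|V(G_k)| → ∞`, and times `T k`
with `T k / t_rel → ∞`, such that for the lazy simple random walk `d(⌊s T k⌋) → exp(-s)` for every
`s > 0`. In particular the product condition holds and there is no cutoff. -/
theorem result :
    ∃ (V : ℕ → Type) (_ : ∀ k, Fintype (V k)) (_ : ∀ k, DecidableEq (V k))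
      (G : ∀ k, SimpleGraph (V k)) (_ : ∀ k, DecidableRel (G k).Adj) (T : ℕ → ℝ),
      Tendsto (fun k => Fintype.card (V k)) atTop atTop ∧
      (∀ k, (G k).Connected) ∧
      (∀ k, VertexTransitive (G k)) ∧
      ProductCondition V (fun k => lazySRW (G k)) ∧
      ¬ HasCutoff V (fun k => lazySRW (G k)) ∧
      Tendsto T atTop atTop ∧
      Tendsto (fun k => T k / Trel (lazySRW (G k))) atTop atTop ∧
      (∀ s : ℝ, 0 < s →
        Tendsto (fun k => d (lazySRW (G k)) ⌊s * T k⌋₊) atTop (𝓝 (Real.exp (-s)))) ∧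
      (∀ ε : ℝ, 0 < ε → ε < 1 →
        Tendsto (fun k => (Tmix (lazySRW (G k)) ε : ℝ) / T k) atTop
          (𝓝 (Real.log (1 / ε)))) := by
  refine ⟨VV, inferInstance, inferInstance, fun k => GG (mk k) (Mk k), inferInstance, TT, ?_,
    fun k => GG_connected (mk k) (Mk k) (mk_pos k), fun k => GG_transitive (mk k) (Mk k),
    product, ?_, TT_lim, tendsto_atTop_mono TT_div half_lim, profile, tmix_lim⟩
  · refine tendsto_atTop_mono (fun k => ?_) tendsto_id
    have h1 : Fintype.card (VV k) = 2 ^ mk k * Mk k := by simp [VV]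
    have h2 : k < mk k := lt_mk k
    have h3 : mk k < 2 ^ mk k := Nat.lt_two_pow_self
    have h4 : 1 ≤ Mk k := NeZero.one_le
    rw [h1]
    simp only [id]
    nlinarith
  · intro h
    refine no_cutoff anti TT_lim profile fun ε h0 h1 => h ε h0 (by linarith)

end

end Pool.Agent.Results.MP_4b7267_pr.GraphExpProfile
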